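import Pool.Agent.R977.BS.MEAS
import Pool.Agent.R977.BS.TREE
import Pool.Agent.R977.BS.LEAVES
import Pool.Agent.R977.BS.ODE
import Pool.Agent.R977.BS.UP
import Pool.Agent.R977.BS.PAIR
import Pool.Agent.R977.BS.KAP
import Pool.Agent.R977.BS.LOP
import Pool.Agent.R977.BS.ZIN
import Pool.Agent.R977.BS.CMP
import Pool.Agent.R977.BS.STEP
import Pool.Agent.R977.BS.L1
import Pool.Agent.R977.BS.BOOST
import Pool.Agent.R977.BS.L2
import Pool.Agent.R977.BS.LIM
import Pool.Agent.R977.BS.CST
import Pool.Agent.R977.BS.FINAL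

/-!
# Height of the continuous-time critical beta-splitting tree

`ctcs n ω` is the tree CTCS(n): every block of size `m ≥ 2` lives for an exponential time of rate `h_{m-1}`
and splits in blocks of sizes `i, m - i` with probability `q(m,i)`, independently. Its height `D*_n`
satisfies `D*_n / log n → c` in probability if and only if `c = 2`; the conjectured value
`1 + μ + μ³σ²/2 = 1.878...` is not the constant.
-/

open MeasureTheory Filter
open scoped Topology

namespace Pool.Agent.Results.MP_87a2dc_pr.HeightConstantTwo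

open Pool.Agent.R977.BS

/-- (i) `ctcs n` has `n` leaves almost surely; (ii) `D*_n / log n → c` in probability iff `c = 2`;
(iii) the conjectured constant `1 + μ + μ³σ²/2`, `μ = 6/π²`, `σ² = 2ζ(3)`, is smaller than `2`. -/
theorem result :
    (∀ n : ℕ, 1 ≤ n → ∀ᵐ ω ∂PP, (ctcs n ω).leaves = n) ∧
    (∀ c : ℝ, (∀ ε : ℝ, 0 < ε → Tendsto
      (fun n : ℕ => PP {ω | ε < |(ctcs n ω).height / Real.log n - c|}) atTop (𝓝 0)) ↔ c = 2) ∧
    1 + 6 / Real.pi ^ 2 + (6 / Real.pi ^ 2) ^ 3 * (2 * ∑' k : ℕ, 1 / ((k : ℝ) + 1) ^ 3) / 2 < 2 := by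
  have hM : StmMEAS := pieceMEAS
  have hS : StmSTEP := pieceSTEP pieceKAP (pieceZIN pieceLOP) pieceCMP
  have hL1 : StmL1 := pieceL1 hS piecePAIR
  have hL2 : StmL2 := pieceL2 hL1 pieceBOOST
  have hLim : StmLIM := pieceLIM hM (pieceODE hM) pieceUP hL2
  exact ⟨pieceLEAVES, pieceFINAL hM (pieceTREE hM) hLim, pieceCST⟩

end Pool.Agent.Results.MP_87a2dc_pr.HeightConstantTwo
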